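import Pool.Agent.Lib.MP_aefbf4_co.Roots
import Pool.Agent.Lib.MP_aefbf4_co.Maker
import Pool.Agent.Lib.MP_aefbf4_co.TreeProps

/-!
# The zero-one law for Maker-Breaker percolation games fails

The counterexample is the tree obtained from the rooted `4`-ary tree (all of whose vertices other
than the root have degree `5`) by replacing every edge by a path of seven edges (and attaching a
pendant path to the root), with `(p, q) = (6, 2)`.

* From any root Breaker wins within seven rounds: in each round he cuts the two open paths
  beyond which Maker has claimed the most edges.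
* With the seven edges of one of the paths as a head start Maker never loses: he always has at
  least four untouched branches, and he repeats the following cycle of three moves:
  claim the first edge of six different paths, complete one of them, complete another one.
-/

namespace Pool.Agent.Results.MP_aefbf4_co.ZeroOneLawFails

open Pool.Agent.Lib.MP_aefbf4_co

theorem result :
    ∃ (V : Type) (Λ : SimpleGraph V), Infinite V ∧ Λ.IsTree ∧
      (∀ v : V, (Λ.neighborSet v).encard ≤ 5) ∧
      (∀ v₀ : V, BreakerWins Λ 6 2 v₀ ∅) ∧
      ∃ (v₀ : V) (F : Finset (Sym2 V)), (∀ e ∈ F, e ∈ Λ.edgeSet) ∧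
        ¬ BreakerWins Λ 6 2 v₀ F := by
  refine ⟨Vtx, T, inferInstance, T_isTree, T_degree, breaker_side, ([], 0), F₀, ?_, maker_side⟩
  intro e he
  obtain ⟨i, -, rfl⟩ := Finset.mem_image.1 he
  exact ed_mem _ (ne_top_of_ne_nil (by simp) i)

end Pool.Agent.Results.MP_aefbf4_co.ZeroOneLawFails
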